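import Pool.Agent.H678R2.H492_PER2

/-!
PER3: the period on a finite window.
-/

namespace Pool.Agent.H492R2

open Finset Polynomial

namespace PER

theorem PP_monic (T : Finset ℕ) (k : ℕ) (hT : ∀ x ∈ T, 1 ≤ x) : (PP T k).Monic := by
  unfold PP
  apply Polynomial.monic_prod_of_monic
  intro x hx
  have h : 0 < x / Nat.gcd x k :=
    Nat.div_pos (Nat.le_of_dvd (hT x hx) (Nat.gcd_dvd_left _ _))
      (Nat.gcd_pos_of_pos_left _ (hT x hx))
  have := Polynomial.monic_X_pow_add_C (1 : ZMod 2) h.ne'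
  simpa using this

theorem PP_natDegree_le (T : Finset ℕ) (X k : ℕ) (hT : ∀ x ∈ T, 1 ≤ x ∧ x < X) :
    (PP T k).natDegree ≤ X ^ 2 := by
  unfold PP
  refine (Polynomial.natDegree_prod_le _ _).trans ?_
  have h1 : ∀ x ∈ T, ((Polynomial.X : (ZMod 2)[X]) ^ (x / Nat.gcd x k) + 1).natDegree ≤ X := by
    intro x hx
    refine (Polynomial.natDegree_add_le _ _).trans ?_
    rw [Polynomial.natDegree_X_pow, Polynomial.natDegree_one]
    have := Nat.div_le_self x (Nat.gcd x k)
    have := (hT x hx).2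
    omega
  refine (Finset.sum_le_sum h1).trans ?_
  rw [Finset.sum_const, smul_eq_mul]
  have h2 : T ⊆ Finset.range X := fun x hx => Finset.mem_range.2 (hT x hx).2
  have h3 := Finset.card_le_card h2
  rw [Finset.card_range] at h3
  nlinarith

/-- solving the recurrence of a monic polynomial -/
theorem op_eq_zero_iff {P : (ZMod 2)[X]} (hP : P.Monic) (u : ℕ → ZMod 2) (n : ℕ) :
    op P u n = 0 ↔ u (n + P.natDegree) = ∑ i ∈ range P.natDegree, P.coeff i * u (n + i) := by
  rw [op_apply, Finset.sum_range_succ, hP.coeff_natDegree, one_mul, CharTwo.add_eq_zero]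
  exact eq_comm

/-- extension of the first `d` values to a solution -/
theorem exists_ext {P : (ZMod 2)[X]} (hP : P.Monic) (u : ℕ → ZMod 2) :
    ∃ U : ℕ → ZMod 2, (∀ n, op P U n = 0) ∧ ∀ i < P.natDegree, U i = u i := by
  let E : LinearRecurrence (ZMod 2) := ⟨P.natDegree, fun i => P.coeff i⟩
  refine ⟨E.mkSol (fun i => u i), fun n => ?_, fun i hi => ?_⟩
  · rw [op_eq_zero_iff hP]
    have h := E.is_sol_mkSol (fun i => u i) n
    rw [Finset.sum_range]
    exact h
  · exact E.mkSol_eq_init (fun i => u i) ⟨i, hi⟩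

/-- uniqueness on windows -/
theorem unique_window {P : (ZMod 2)[X]} (hP : P.Monic) (u U : ℕ → ZMod 2) (M : ℕ)
    (h0 : ∀ i < P.natDegree, U i = u i) (hu : ∀ m ≤ M, op P u m = 0)
    (hU : ∀ m ≤ M, op P U m = 0) : ∀ n ≤ M + P.natDegree, U n = u n := by
  intro n
  induction n using Nat.strong_induction_on with
  | _ n ih =>
    intro hn
    by_cases hlt : n < P.natDegree
    · exact h0 n hlt
    · obtain ⟨m, rfl⟩ : ∃ m, n = m + P.natDegree := ⟨n - P.natDegree, by omega⟩
      have hm : m ≤ M := by omega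
      rw [(op_eq_zero_iff hP u m).mp (hu m hm), (op_eq_zero_iff hP U m).mp (hU m hm)]
      apply Finset.sum_congr rfl
      intro i hi
      rw [Finset.mem_range] at hi
      rw [ih (m + i) (by omega) (by omega)]

end PER

open PER

/-- PER3 : the same on a finite window. -/
theorem window_period (T : Finset ℕ) (X : ℕ) (hX : 1 ≤ X) (hT : ∀ x ∈ T, 1 ≤ x ∧ x < X) (a : ℕ)
    (ha : T.card ≤ 2 ^ a) (ha2 : 2 ^ a ≤ 2 * X) (u : ℕ → ZMod 2)
    (hk : ∀ k, 1 ≤ k → k ≤ X → ∀ m ≤ 2 * X ^ 2, op (PP T k) u m = 0) : u (2 ^ a) = u 0 := by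
  have hPm : ∀ k, (PP T k).Monic := fun k => PP_monic T k fun x hx => (hT x hx).1
  have hd : ∀ k, (PP T k).natDegree ≤ X ^ 2 := fun k => PP_natDegree_le T X k hT
  obtain ⟨U, hU1, hU2⟩ := exists_ext (hPm 1) u
  have hwin := unique_window (hPm 1) u U (2 * X ^ 2) hU2 (hk 1 le_rfl hX) (fun m _ => hU1 m)
  have hX2 : 2 * X ≤ 2 * X ^ 2 := by nlinarith
  have hkU : ∀ k, 1 ≤ k → k ≤ X → ∀ n, op (PP T k) U n = 0 := by
    intro k hk1 hk2
    set V := op (PP T k) U with hV
    have hV1 : ∀ n, op (PP T 1) V n = 0 := by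
      intro n
      rw [hV, ← op_mul, mul_comm, op_mul]
      have : op (PP T 1) U = 0 := funext hU1
      rw [this, op_zero]
      rfl
    have hV0 : ∀ i < (PP T 1).natDegree, V i = (0 : ℕ → ZMod 2) i := by
      intro i hi
      have h1 := hd 1
      have h2 := hd k
      have h3 : V i = op (PP T k) u i := by
        rw [hV, op_apply, op_apply]
        apply Finset.sum_congr rfl
        intro j hj
        rw [Finset.mem_range] at hj
        rw [hwin (i + j) (by omega)]
      rw [h3, hk k hk1 hk2 i (by omega)]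
      rfl
    intro n
    have h4 := unique_window (hPm 1) 0 V n hV0 (fun m _ => by rw [op_zero]; rfl)
      (fun m _ => hV1 m) n (by omega)
    rw [h4]
    rfl
  have hfin := period_two_pow T X hX hT a ha U hkU 0
  rw [Nat.zero_add] at hfin
  rw [← hwin (2 ^ a) (by omega), hfin, hwin 0 (by omega)]

end Pool.Agent.H492R2
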