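import Pool.Agent.H492R2.Defs

/-!
PER2 and PER3: a sequence over `ZMod 2` killed by all the polynomials `PP T k` has period `2 ^ a`.
-/

namespace Pool.Agent.H492R2

open Finset Polynomial

namespace PER

theorem Sh_pow (i : ℕ) (u : ℕ → ZMod 2) (n : ℕ) : (Sh ^ i) u n = u (n + i) := by
  induction i generalizing u n with
  | zero => simp
  | succ i ih =>
    rw [pow_succ]
    change (Sh ^ i) (Sh u) n = _
    rw [ih]
    change u (n + i + 1) = _
    congr 1

theorem op_apply (P : (ZMod 2)[X]) (u : ℕ → ZMod 2) (n : ℕ) :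
    op P u n = ∑ i ∈ range (P.natDegree + 1), P.coeff i * u (n + i) := by
  unfold op
  rw [Polynomial.aeval_eq_sum_range, LinearMap.sum_apply, Finset.sum_apply]
  apply Finset.sum_congr rfl
  intro i _
  rw [LinearMap.smul_apply, Pi.smul_apply, Sh_pow, smul_eq_mul]

theorem op_mul (P Q : (ZMod 2)[X]) (u : ℕ → ZMod 2) : op (P * Q) u = op P (op Q u) := by
  unfold op
  rw [map_mul]
  rfl

theorem op_zero (P : (ZMod 2)[X]) : op P (0 : ℕ → ZMod 2) = 0 := by
  unfold op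
  exact map_zero _

theorem op_dvd {P Q : (ZMod 2)[X]} (h : P ∣ Q) {u : ℕ → ZMod 2} (hu : op P u = 0) :
    op Q u = 0 := by
  obtain ⟨R, rfl⟩ := h
  rw [mul_comm, op_mul, hu, op_zero]

theorem op_X_pow_add_one (m : ℕ) (u : ℕ → ZMod 2) (n : ℕ) :
    op ((X : (ZMod 2)[X]) ^ m + 1) u n = u (n + m) + u n := by
  unfold op
  rw [map_add, map_pow, aeval_X, map_one, LinearMap.add_apply, Pi.add_apply, Sh_pow]
  rfl

theorem X_pow_dvd {y Y : ℕ} (h : y ∣ Y) :
    ((X : (ZMod 2)[X]) ^ y + 1) ∣ ((X : (ZMod 2)[X]) ^ Y + 1) := by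
  obtain ⟨m, rfl⟩ := h
  have h1 : ∀ a : (ZMod 2)[X], a + 1 = a - 1 := by
    intro a
    rw [sub_eq_add_neg, CharTwo.neg_eq]
  rw [h1, h1, pow_mul]
  have := sub_dvd_pow_sub_pow ((X : (ZMod 2)[X]) ^ y) 1 m
  rwa [one_pow] at this

theorem period_k (T : Finset ℕ) (a : ℕ) (ha : T.card ≤ 2 ^ a) (U : ℕ → ZMod 2) (k : ℕ)
    (hk : ∀ n, op (PP T k) U n = 0) (n : ℕ) :
    U (n + (∏ x ∈ T, x / Nat.gcd x k) * 2 ^ a) = U n := by
  set Y := ∏ x ∈ T, x / Nat.gcd x k with hY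
  have h1 : PP T k ∣ (X : (ZMod 2)[X]) ^ (Y * 2 ^ a) + 1 := by
    have h2 : PP T k ∣ ((X : (ZMod 2)[X]) ^ Y + 1) ^ T.card := by
      unfold PP
      rw [← Finset.prod_const]
      apply Finset.prod_dvd_prod_of_dvd
      intro x hx
      exact X_pow_dvd (Finset.dvd_prod_of_mem _ hx)
    have h3 : ((X : (ZMod 2)[X]) ^ Y + 1) ^ (2 ^ a) = X ^ (Y * 2 ^ a) + 1 := by
      rw [add_pow_char_pow, one_pow, ← pow_mul]
    rw [← h3]
    exact h2.trans (pow_dvd_pow _ ha)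
  have h4 : op (PP T k) U = 0 := funext hk
  have h5 := congrFun (op_dvd h1 h4) n
  rw [op_X_pow_add_one] at h5
  exact CharTwo.add_eq_zero.mp h5

theorem prime_not_dvd (T : Finset ℕ) (X : ℕ) (hT : ∀ x ∈ T, 1 ≤ x ∧ x < X) (p : ℕ)
    (hp : p.Prime) : ¬ p ∣ ∏ x ∈ T, x / Nat.gcd x (p ^ Nat.log p X) := by
  rw [hp.prime.dvd_finsetProd_iff]
  rintro ⟨x, hx, hd⟩
  obtain ⟨hx1, hx2⟩ := hT x hx
  have hx0 : x ≠ 0 := by omega
  have he : p ^ x.factorization p ∣ x := Nat.ordProj_dvd x p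
  have hle : x.factorization p ≤ Nat.log p X := by
    apply Nat.le_log_of_pow_le hp.one_lt
    exact (Nat.le_of_dvd (by omega) he).trans hx2.le
  have hg : p ^ x.factorization p ∣ Nat.gcd x (p ^ Nat.log p X) :=
    Nat.dvd_gcd he (pow_dvd_pow p hle)
  have h1 : p * Nat.gcd x (p ^ Nat.log p X) ∣ x := by
    have h2 := Nat.mul_dvd_mul_right hd (Nat.gcd x (p ^ Nat.log p X))
    rwa [Nat.div_mul_cancel (Nat.gcd_dvd_left _ _)] at h2
  have h3 : p ^ (x.factorization p + 1) ∣ x := by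
    rw [pow_succ, mul_comm]
    exact (Nat.mul_dvd_mul_left p hg).trans h1
  exact Nat.pow_succ_factorization_not_dvd hx0 hp h3

end PER

open PER

/-- PER2 : a sequence killed by all the `PP T k` has period `2 ^ a`. -/
theorem period_two_pow (T : Finset ℕ) (X : ℕ) (hX : 1 ≤ X) (hT : ∀ x ∈ T, 1 ≤ x ∧ x < X) (a : ℕ)
    (ha : T.card ≤ 2 ^ a) (U : ℕ → ZMod 2)
    (hk : ∀ k, 1 ≤ k → k ≤ X → ∀ n, op (PP T k) U n = 0) (n : ℕ) : U (n + 2 ^ a) = U n := by
  have hYpos : ∀ k, 0 < (∏ x ∈ T, x / Nat.gcd x k) * 2 ^ a := by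
    intro k
    apply Nat.mul_pos _ (by positivity)
    apply Finset.prod_pos
    intro x hx
    exact Nat.div_pos (Nat.le_of_dvd (hT x hx).1 (Nat.gcd_dvd_left _ _))
      (Nat.gcd_pos_of_pos_left _ (hT x hx).1)
  have hper : ∀ k, 1 ≤ k → k ≤ X → ∀ n, U (n + (∏ x ∈ T, x / Nat.gcd x k) * 2 ^ a) = U n :=
    fun k h1 h2 n => period_k T a ha U k (hk k h1 h2) n
  have hex : ∃ g, 0 < g ∧ ∀ n, U (n + g) = U n := ⟨_, hYpos 1, hper 1 le_rfl hX⟩
  classical
  set g := Nat.find hex with hg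
  obtain ⟨hg0, hgp⟩ := Nat.find_spec hex
  rw [← hg] at hg0 hgp
  have hmul : ∀ c n, U (n + g * c) = U n := by
    intro c
    induction c with
    | zero => intro n; simp
    | succ c ih =>
      intro n
      rw [Nat.mul_succ, ← Nat.add_assoc, hgp, ih]
  have hdvd : ∀ m, (∀ n, U (n + m) = U n) → g ∣ m := by
    intro m hm
    by_contra hnd
    have hr0 : 0 < m % g := Nat.pos_of_ne_zero fun h => hnd (Nat.dvd_of_mod_eq_zero h)
    have hrg : m % g < g := Nat.mod_lt _ hg0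
    apply Nat.find_min hex (hg ▸ hrg)
    refine ⟨hr0, fun n => ?_⟩
    have h1 : n + m % g + g * (m / g) = n + m := by
      rw [Nat.add_assoc, Nat.mod_add_div]
    rw [← hmul (m / g) (n + m % g), h1, hm]
  have hg2 : g ∣ 2 ^ a := by
    rw [← Nat.factorization_prime_le_iff_dvd hg0.ne' (by positivity)]
    intro p hp
    have hk1 : 1 ≤ p ^ Nat.log p X := Nat.one_le_pow _ _ hp.pos
    have hk2 : p ^ Nat.log p X ≤ X := Nat.pow_log_le_self p (by omega)
    have h1 := hdvd _ (hper _ hk1 hk2)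
    have hY0 : (∏ x ∈ T, x / Nat.gcd x (p ^ Nat.log p X)) ≠ 0 := fun h => by
      have := hYpos (p ^ Nat.log p X)
      rw [h, Nat.zero_mul] at this
      exact lt_irrefl _ this
    have h2 := (Nat.factorization_prime_le_iff_dvd hg0.ne' (hYpos _).ne').mpr h1 p hp
    rw [Nat.factorization_mul hY0 (by positivity), Finsupp.add_apply,
      Nat.factorization_eq_zero_of_not_dvd (prime_not_dvd T X hT p hp), Nat.zero_add] at h2
    exact h2
  obtain ⟨c, hc⟩ := hg2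
  rw [hc]
  exact hmul c n

end Pool.Agent.H492R2
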