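import Mathlib
import Pool.Agent.H292R2.Leh.Defs
import Pool.Agent.H159R2.LehE

/-!
Task M of the discriminant form of Dobrowolski's theorem: the discriminant of a number field is at
most the discriminant of the minimal polynomial of a generator.
-/

open Polynomial NumberField

namespace Pool.Agent.H678R2.LehM

open Pool.Agent.H292R2.Leh

theorem adj_top (K : Type*) [Field K] [NumberField K] (a : 𝓞 K)
    (ha : IntermediateField.adjoin ℚ {(a : K)} = ⊤) : Algebra.adjoin ℚ {(a : K)} = ⊤ := by
  have hint : IsIntegral ℚ (a : K) := (Algebra.IsIntegral.isIntegral (R := ℚ) (a : K))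
  rw [← IntermediateField.adjoin_simple_toSubalgebra_of_isAlgebraic hint.isAlgebraic, ha]
  rfl

theorem minpoly_map (K : Type*) [Field K] [NumberField K] (a : 𝓞 K) :
    minpoly ℚ (a : K) = (minpoly ℤ a).map (algebraMap ℤ ℚ) := by
  have h1 : IsIntegral ℤ (a : K) := a.isIntegral_coe
  have h2 : minpoly ℤ (a : K) = minpoly ℤ a :=
    minpoly.algebraMap_eq (FaithfulSMul.algebraMap_injective (𝓞 K) K) a
  rw [minpoly.isIntegrallyClosed_eq_field_fractions' ℚ h1, h2]

/-- The index of the lattice spanned by the powers of a generator. -/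
theorem discr_le (K : Type*) [Field K] [NumberField K] (a : 𝓞 K) (pb : PowerBasis ℚ K)
    (hpb : pb.gen = (a : K)) :
    |(NumberField.discr K : ℚ)| ≤ |Algebra.discr ℚ pb.basis| := by
  classical
  let b := RingOfIntegers.basis K
  have hcard : Fintype.card (Fin pb.dim) =
      Fintype.card (Module.Free.ChooseBasisIndex ℤ (𝓞 K)) := by
    rw [← Module.finrank_eq_card_basis (integralBasis K), Fintype.card_fin, pb.finrank]
  let e := Fintype.equivOfCardEq hcard
  let C : Matrix (Module.Free.ChooseBasisIndex ℤ (𝓞 K)) (Module.Free.ChooseBasisIndex ℤ (𝓞 K)) ℤ :=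
    Matrix.of fun i j => b.repr (a ^ (e.symm i : ℕ)) j
  have hv : (pb.basis ∘ e.symm : _ → K) =
      ((C.map (Int.castRingHom ℚ)).map (algebraMap ℚ K)).mulVec (integralBasis K) := by
    funext i
    have h1 : (pb.basis ∘ e.symm) i = algebraMap (𝓞 K) K (a ^ (e.symm i : ℕ)) := by
      simp [hpb]
    have h2 := b.sum_repr (a ^ (e.symm i : ℕ))
    rw [h1, ← h2, map_sum]
    simp only [Matrix.mulVec, dotProduct, Matrix.map_apply, integralBasis_apply]
    apply Finset.sum_congr rfl
    intro j _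
    rw [zsmul_eq_mul, map_mul, map_intCast]
    simp [C, b]
  have hd : Algebra.discr ℚ pb.basis = ((C.det : ℤ) : ℚ) ^ 2 * (NumberField.discr K : ℚ) := by
    rw [← Algebra.discr_reindex ℚ pb.basis e, hv, Algebra.discr_of_matrix_mulVec, coe_discr]
    congr 2
    rw [← RingHom.mapMatrix_apply, ← RingHom.map_det]
    simp
  have hne : Algebra.discr ℚ pb.basis ≠ 0 := Algebra.discr_not_zero_of_basis ℚ pb.basis
  have hC : C.det ≠ 0 := by
    intro h0
    rw [hd, h0] at hne
    simp at hne
  have h1 : (1 : ℚ) ≤ ((C.det : ℤ) : ℚ) ^ 2 := by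
    have : (1 : ℤ) ≤ C.det ^ 2 := by
      have := sq_pos_of_ne_zero hC
      omega
    exact_mod_cast this
  rw [hd, abs_mul, abs_of_nonneg (by positivity : (0 : ℚ) ≤ ((C.det : ℤ) : ℚ) ^ 2)]
  nlinarith [abs_nonneg (NumberField.discr K : ℚ)]

theorem enum_minpoly (K : Type*) [Field K] [NumberField K] (a : 𝓞 K) (pb : PowerBasis ℚ K)
    (hpb : pb.gen = (a : K)) (e : Fin pb.dim ≃ (K →ₐ[ℚ] ℂ)) :
    Enum (minpoly ℤ a) (fun i => e i pb.gen) := by
  classical
  have hm : toC (minpoly ℤ a) = (minpoly ℚ pb.gen).map (algebraMap ℚ ℂ) := by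
    rw [hpb, minpoly_map, Polynomial.map_map]
    rfl
  unfold Enum
  rw [hm]
  set g := (minpoly ℚ pb.gen).map (algebraMap ℚ ℂ) with hg
  have hgm : g.Monic := (minpoly.monic pb.isIntegral_gen).map _
  have hnodup : g.roots.Nodup :=
    nodup_roots (Separable.map (Algebra.IsSeparable.isSeparable ℚ pb.gen))
  have hroots : g.roots = (Finset.univ : Finset (Fin pb.dim)).val.map fun i => e i pb.gen := by
    apply (Multiset.Nodup.ext hnodup ?_).mpr
    · intro y
      rw [Multiset.mem_map]
      constructor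
      · intro hy
        refine ⟨e.symm (pb.liftEquiv'.symm ⟨y, hy⟩), by simp, ?_⟩
        rw [Equiv.apply_symm_apply]
        have := pb.liftEquiv'.apply_symm_apply ⟨y, hy⟩
        exact congrArg Subtype.val this
      · rintro ⟨i, -, rfl⟩
        exact (pb.liftEquiv' (e i)).2
    · apply Multiset.Nodup.map
      · intro i j hij
        exact e.injective (pb.algHom_ext hij)
      · exact Finset.univ.nodup
  have hs := (IsAlgClosed.splits g).eq_prod_roots_of_monic hgm
  rw [hs, hroots, Multiset.map_map]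
  rfl

theorem norm_discr {K : Type*} [Field K] [NumberField K] (pb : PowerBasis ℚ K)
    (e : Fin pb.dim ≃ (K →ₐ[ℚ] ℂ)) :
    ((|Algebra.discr ℚ pb.basis| : ℚ) : ℝ) = dprod (fun i => e i pb.gen) := by
  have h := Algebra.discr_powerBasis_eq_prod'' ℚ ℂ pb e
  have h2 := congrArg norm h
  rw [norm_mul, norm_pow, norm_neg, norm_one, one_pow, one_mul] at h2
  have h3 : ‖(algebraMap ℚ ℂ) (Algebra.discr ℚ pb.basis)‖ =
      ((|Algebra.discr ℚ pb.basis| : ℚ) : ℝ) := by
    rw [Rat.cast_abs]
    simp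
  rw [← h3, h2, norm_prod]
  simp only [norm_prod, norm_mul]
  rw [Finset.prod_prod_Ioi_mul_eq_prod_prod_off_diag
    (fun i j : Fin pb.dim => ‖e i pb.gen - e j pb.gen‖)]
  unfold dprod
  apply Finset.prod_congr rfl
  intro i _
  apply Finset.prod_congr
  · ext j
    simp
  · intro j _
    exact norm_sub_rev _ _

theorem discr_minpoly_ge (K : Type*) [Field K] [NumberField K] (a : 𝓞 K)
    (ha : IntermediateField.adjoin ℚ {(a : K)} = ⊤) :
    |NumberField.discr K| ≤ |(minpoly ℤ a).discr| ∧ (minpoly ℤ a).natDegree = Module.finrank ℚ K := by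
  have hint : IsIntegral ℚ (a : K) := (Algebra.IsIntegral.isIntegral (R := ℚ) (a : K))
  let pb := PowerBasis.ofAdjoinEqTop hint (adj_top K a ha)
  have hpb : pb.gen = (a : K) := rfl
  have hdim : pb.dim = (minpoly ℚ (a : K)).natDegree := rfl
  have hdeg : (minpoly ℤ a).natDegree = Module.finrank ℚ K := by
    rw [pb.finrank, hdim, minpoly_map,
      natDegree_map_eq_of_injective (algebraMap ℤ ℚ).injective_int]
  refine ⟨?_, hdeg⟩
  have hcard : Fintype.card (Fin pb.dim) = Fintype.card (K →ₐ[ℚ] ℂ) := by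
    rw [AlgHom.card, pb.finrank, Fintype.card_fin]
  let e := Fintype.equivOfCardEq hcard
  have hpos : 0 < pb.dim := by
    rw [← pb.finrank]
    exact Module.finrank_pos
  have hmonic : (minpoly ℤ a).Monic := minpoly.monic a.isIntegral
  have h1 := Pool.Agent.H159R2.LehE.discr_eq (minpoly ℤ a) hmonic _
    (enum_minpoly K a pb hpb e) hpos
  have h2 := norm_discr pb e
  have h3 := discr_le K a pb hpb
  have h4 : ((|(NumberField.discr K : ℚ)| : ℚ) : ℝ) ≤ ((|Algebra.discr ℚ pb.basis| : ℚ) : ℝ) := by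
    exact_mod_cast h3
  rw [h2, ← h1] at h4
  have h5 : ((|NumberField.discr K| : ℤ) : ℝ) ≤ ((|(minpoly ℤ a).discr| : ℤ) : ℝ) := by
    push_cast at h4 ⊢
    exact h4
  exact_mod_cast h5

end Pool.Agent.H678R2.LehM
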